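import Pool.Agent.MP_b00c97_gt.LN.Defs

/-! # MP_b00c97_gt: basic facts on window systems -/

set_option autoImplicit false

open Filter Set

namespace Pool.Agent.MP_b00c97_gt.LN

universe u

namespace WSys

variable {G : Type u} [Group G] (S : WSys G)

theorem V_succ (i : ℕ) : S.V (i + 1) ⊆ S.V i := fun v hv => by
  have := S.mul_V i v hv 1 (S.one_V _)
  rwa [mul_one] at this

theorem V_anti {i j : ℕ} (h : i ≤ j) : S.V j ⊆ S.V i :=
  antitone_nat_of_succ_le (f := S.V) S.V_succ h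

theorem E_succ (i : ℕ) : S.E i ⊆ S.E (i + 1) := fun d hd => by
  have := S.mul_E i d hd 1 (S.one_E _)
  rwa [mul_one] at this

theorem E_mono {i j : ℕ} (h : i ≤ j) : S.E i ⊆ S.E j :=
  monotone_nat_of_le_succ (f := S.E) S.E_succ h

/-- Products of elements of two different neighbourhoods. -/
theorem mul_V' {i j k : ℕ} (hi : k < i) (hj : k < j) {v w : G} (hv : v ∈ S.V i) (hw : w ∈ S.V j) :
    v * w ∈ S.V k :=
  S.mul_V k v (S.V_anti hi hv) w (S.V_anti hj hw)

theorem mul_E' {i j k : ℕ} (hi : i < k) (hj : j < k) {c d : G} (hc : c ∈ S.E i) (hd : d ∈ S.E j) :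
    c * d ∈ S.E k := by
  obtain ⟨k, rfl⟩ : ∃ k', k = k' + 1 := ⟨k - 1, by omega⟩
  exact S.mul_E k c (S.E_mono (by omega) hc) d (S.E_mono (by omega) hd)

/-- Moving a small element across an element of a finite set. -/
theorem conj' {i j k : ℕ} (hi : i < j) (hk : k < j) {d v : G} (hd : d ∈ S.E i) (hv : v ∈ S.V j) :
    d⁻¹ * v * d ∈ S.V k := by
  obtain ⟨j, rfl⟩ : ∃ j', j = j' + 1 := ⟨j - 1, by omega⟩
  exact S.V_anti (by omega) (S.conj j d (S.E_mono (by omega) hd) v hv)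

theorem In.mono {S : WSys G} {g : G} {k k' m m' : ℕ} (h : S.In g k m) (hk : k ≤ k') (hm : m' ≤ m) :
    S.In g k' m' := by
  obtain ⟨d, hd, h⟩ := h
  exact ⟨d, S.E_mono hk hd, S.V_anti hm h⟩

theorem in_iff {g : G} {k m : ℕ} : S.In g k m ↔ ∃ d ∈ S.E k, ∃ v ∈ S.V m, g = d * v := by
  constructor
  · rintro ⟨d, hd, h⟩
    exact ⟨d, hd, _, h, by group⟩
  · rintro ⟨d, hd, v, hv, rfl⟩
    exact ⟨d, hd, by simpa using hv⟩

/-- `E k * V m * V m'` is contained in `E k * V n` for `n < m, m'`. -/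
theorem In.mul_V {S : WSys G} {g : G} {k m m' n : ℕ} (h : S.In g k m) {v : G} (hv : v ∈ S.V m')
    (hm : n < m) (hm' : n < m') : S.In (g * v) k n := by
  obtain ⟨d, hd, h⟩ := h
  refine ⟨d, hd, ?_⟩
  rw [← mul_assoc]
  exact S.mul_V' hm hm' h hv

/-- `E k * V m * E k' * V m'` is contained in `E (max k k' + 1) * V n` if `k' < m` and
`n + 1 < m`, `n < m'`. -/
theorem In.mul {S : WSys G} {g g' : G} {k m k' m' n l : ℕ} (h : S.In g k m) (h' : S.In g' k' m')
    (hk : k < l) (hk' : k' < l) (hkm : k' < m) (hm : n + 1 < m) (hm' : n < m') :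
    S.In (g * g') l n := by
  obtain ⟨d, hd, v, hv, rfl⟩ := (S.in_iff).1 h
  obtain ⟨d', hd', v', hv', rfl⟩ := (S.in_iff).1 h'
  refine (S.in_iff).2 ⟨d * d', S.mul_E' hk hk' hd hd', (d'⁻¹ * v * d') * v', ?_, by group⟩
  exact S.mul_V' (i := n + 1) (by omega) hm' (S.conj' hkm hm hd' hv) hv'

theorem exists_level (g : G) (m : ℕ) : ∃ k, S.In g k m := by
  obtain ⟨i, hi, h⟩ := (S.small g).forall_exists_of_atTop m
  exact ⟨i + 1, In.mono (S := S) h le_rfl hi⟩

/-- The level of `g` at precision `m`. -/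
noncomputable def lev (g : G) (m : ℕ) : ℕ := by
  classical exact Nat.find (S.exists_level g m)

theorem in_lev (g : G) (m : ℕ) : S.In g (S.lev g m) m := by
  classical exact Nat.find_spec (S.exists_level g m)

theorem lev_le {g : G} {k m : ℕ} (h : S.In g k m) : S.lev g m ≤ k := by
  classical exact Nat.find_min' (S.exists_level g m) h

theorem in_iff_lev {g : G} {k m : ℕ} : S.In g k m ↔ S.lev g m ≤ k :=
  ⟨S.lev_le, fun h => (S.in_lev g m).mono h le_rfl⟩

end WSys

end Pool.Agent.MP_b00c97_gt.LN
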