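import Mathlib

/-!
# MP_b00c97_gt: the principle LGP and window systems
-/

set_option autoImplicit false

open Topology Filter Set Pointwise

namespace Pool.Agent.MP_b00c97_gt.LN

universe u

/-- A family of (codes of) infinite sets of natural numbers, the set coded by `A` being
`{n | A n = 0}`, is hitting if for every sequence of infinite sets it has a member which has
infinite intersection with all of them. -/
def Hitting (𝒜 : Set (ℕ → ℕ)) : Prop :=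
  ∀ s : ℕ → ℕ → ℕ, (∀ i, {n | s i n = 0}.Infinite) →
    ∃ A ∈ 𝒜, ∀ i, {n | A n = 0 ∧ s i n = 0}.Infinite

/-- The Laver generic principle. -/
def LGP : Prop :=
  ∀ (Θ : ℕ → (ℕ → ℕ) → (ℕ → ℕ) → (ℕ → ℕ)) (𝒜 : (ℕ → ℕ) → Set (ℕ → ℕ)),
    (∀ x, Hitting (𝒜 x)) →
    ∃ (X : Set (ℕ → ℕ)) (l : ℕ → ℕ), X.Nonempty ∧ StrictMono l ∧
      (∀ i, ∀ x ∈ X, ∀ y ∈ X, Θ i x y ∈ X) ∧
      (∀ x ∈ X, ∃ A ∈ X, A ∈ 𝒜 x ∧ ∀ᶠ k in atTop, A (l k) = 0) ∧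
      (∀ N ∈ X, ∀ h : ℕ → ℕ → ℕ, ∃ x ∈ X, ∀ᶠ n in atTop, ∀ j < N n, h n j ≠ x n) ∧
      (∀ t : ℕ → ℕ, ∃ g ∈ X, ∀ f ∈ X, ∀ᶠ k in atTop, ∀ n,
        l k ≤ n → n ≤ f (l k) → t n ≤ f (l k) → t n ≤ g n)

/-- A subset `A` of a topological group is `o`-bounded. -/
def OBounded {G : Type u} [Group G] [TopologicalSpace G] (A : Set G) : Prop :=
  ∀ U : ℕ → Set G, (∀ n, U n ∈ 𝓝 (1 : G)) →
    ∃ F : ℕ → Finset G, A ⊆ ⋃ n, (F n : Set G) * U n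

/-- Player I has a winning strategy in the Open-Finite game `OF(A)`: a rule `σ` giving a
neighbourhood of the identity as a function of the finite list of earlier moves of player II,
such that no sequence of finite sets played by II leads to a cover of `A`. -/
def FirstWins {G : Type u} [Group G] [TopologicalSpace G] (A : Set G) : Prop :=
  ∃ σ : List (Finset G) → Set G, (∀ l, σ l ∈ 𝓝 (1 : G)) ∧
    ∀ F : ℕ → Finset G, ¬ A ⊆ ⋃ n, (F n : Set G) * σ ((List.range n).map F)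

/-- A window system in a group. -/
structure WSys (G : Type u) [Group G] where
  /-- the neighbourhoods -/
  V : ℕ → Set G
  /-- the finite sets -/
  E : ℕ → Finset G
  one_V : ∀ i, (1 : G) ∈ V i
  inv_V : ∀ i, ∀ v ∈ V i, v⁻¹ ∈ V i
  mul_V : ∀ i, ∀ v ∈ V (i + 1), ∀ w ∈ V (i + 1), v * w ∈ V i
  one_E : ∀ i, (1 : G) ∈ E i
  inv_E : ∀ i, ∀ d ∈ E i, d⁻¹ ∈ E i
  mul_E : ∀ i, ∀ c ∈ E i, ∀ d ∈ E i, c * d ∈ E (i + 1)
  conj : ∀ i, ∀ d ∈ E i, ∀ v ∈ V (i + 1), d⁻¹ * v * d ∈ V i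
  small : ∀ g : G, ∃ᶠ i in atTop, ∃ d ∈ E (i + 1), d⁻¹ * g ∈ V i
  big : ∀ J : ℕ → ℕ, StrictMono J →
    ∃ z : G, ∀ k, ¬ ∃ d ∈ E (J (k + 1)), d⁻¹ * z ∈ V (J k + 1)

namespace WSys

variable {G : Type u} [Group G] (S : WSys G)

/-- `g ∈ E k * V m`. -/
def In (g : G) (k m : ℕ) : Prop := ∃ d ∈ S.E k, d⁻¹ * g ∈ S.V m

/-- Two-sided window systems. -/
def TwoSided : Prop :=
  ∀ v : G, ∀ᶠ i in atTop, ∀ κ, i + 2 ≤ κ → S.In v⁻¹ κ (i + 2) →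
    ∃ m, i ≤ m + 1 ∧ m ≤ κ ∧ S.In v (m + 2) (m - 1)

/-- `a` is a bad window for `v` with respect to `g`. -/
def Bad (g : ℕ → ℕ) (v : G) (a : ℕ) : Prop :=
  ∃ k, a + 2 ≤ k ∧ S.In v⁻¹ k (a + 2) ∧ ∀ n, a ≤ n + 1 → n ≤ k → ¬ S.In v (g n) (n - 2)

/-- The (codes of) infinite sets consisting of bad windows for a single element. -/
def badFam (g : ℕ → ℕ) : Set (ℕ → ℕ) :=
  {A | {a | A a = 0}.Infinite ∧ ∃ v : G, ∀ a, A a = 0 → S.Bad g v a}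

end WSys

end Pool.Agent.MP_b00c97_gt.LN
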