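import Pool.Agent.MP_b00c97_gt.LN.Basic

/-!
# MP_b00c97_gt, part N: coarsening of window systems, and two-sided systems (blocks N2, N3)
-/

set_option autoImplicit false

open Topology Filter Set Pointwise

namespace Pool.Agent.MP_b00c97_gt.LN

universe u

/-- A number lies in exactly one interval between consecutive values of a strictly increasing
sequence. -/
theorem exists_between (c : ℕ → ℕ) (hc : StrictMono c) {j i : ℕ} (h : c i ≤ j) :
    ∃ m, i ≤ m ∧ c m ≤ j ∧ j < c (m + 1) := by
  have hex : ∃ n, j < c (i + n + 1) := ⟨j, by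
    have := hc.id_le (i + j + 1)
    simp only [id] at this
    omega⟩
  classical
  refine ⟨i + Nat.find hex, by omega, ?_, Nat.find_spec hex⟩
  rcases Nat.eq_zero_or_pos (Nat.find hex) with h0 | h0
  · rw [h0]
    simpa using h
  · obtain ⟨p, hp⟩ : ∃ p, Nat.find hex = p + 1 := ⟨Nat.find hex - 1, by omega⟩
    have := Nat.find_min hex (m := p) (by omega)
    rw [hp]
    rw [← add_assoc]
    omega

variable {G : Type u} [Group G]

/-- N2.  Coarsening of the windows. -/
theorem WSys.exists_coarsen (S : WSys G) (c : ℕ → ℕ) (hc : StrictMono c) :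
    ∃ T : WSys G, (∀ i, T.V i = S.V (c i)) ∧ ∀ i, T.E i = S.E (c i) := by
  have hcs : ∀ i, c i < c (i + 1) := fun i => hc (Nat.lt_succ_self i)
  refine ⟨{ V := fun i => S.V (c i)
            E := fun i => S.E (c i)
            one_V := fun i => S.one_V _
            inv_V := fun i v hv => S.inv_V _ v hv
            mul_V := fun i v hv w hw => S.mul_V' (hcs i) (hcs i) hv hw
            one_E := fun i => S.one_E _
            inv_E := fun i d hd => S.inv_E _ d hd
            mul_E := fun i x hx y hy => S.mul_E' (hcs i) (hcs i) hx hy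
            conj := fun i d hd v hv => S.conj' (hcs i) (hcs i) hd hv
            small := ?_
            big := ?_ }, fun i => rfl, fun i => rfl⟩
  · intro g
    rw [frequently_atTop]
    intro i
    obtain ⟨j, hj, h⟩ := (S.small g).forall_exists_of_atTop (c i)
    obtain ⟨m, him, hm, hm'⟩ := exists_between c hc hj
    exact ⟨m, him, WSys.In.mono (S := S) h (by omega) hm⟩
  · intro J hJ
    obtain ⟨z, hz⟩ := S.big (c ∘ J) (hc.comp hJ)
    refine ⟨z, fun k hk => hz k ?_⟩
    refine WSys.In.mono (S := S) hk le_rfl ?_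
    have := hcs (J k)
    simp only [Function.comp_apply]
    omega

/-- N3.  If one of the families is not hitting some coarser system is two-sided. -/
theorem WSys.exists_twoSided (S : WSys G) (g : ℕ → ℕ) (hg : ¬ Hitting (S.badFam g)) :
    ∃ T : WSys G, T.TwoSided := by
  classical
  unfold Hitting at hg
  push Not at hg
  obtain ⟨s, hs, hA⟩ := hg
  -- every `v` has few bad windows in one of the sets
  have hfew : ∀ v : G, ∃ i B, ∀ a, B ≤ a → s i a = 0 → ¬ S.Bad g v a := by
    intro v
    by_contra hcon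
    push Not at hcon
    have hinf : ∀ i, {a | S.Bad g v a ∧ s i a = 0}.Infinite := by
      intro i
      refine Set.infinite_of_forall_exists_gt fun n => ?_
      obtain ⟨a, ha, h1, h2⟩ := hcon i (n + 1)
      exact ⟨a, ⟨h2, h1⟩, by omega⟩
    let A : ℕ → ℕ := fun a => if S.Bad g v a then 0 else 1
    have hA0 : ∀ a, A a = 0 ↔ S.Bad g v a := by
      intro a
      simp only [A]
      split_ifs with h <;> simp [h]
    have hmem : A ∈ S.badFam g := by
      refine ⟨(hinf 0).mono fun a ha => (hA0 a).2 ha.1, v, fun a ha => (hA0 a).1 ha⟩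
    obtain ⟨i, hi⟩ := hA A hmem
    have : ({n | A n = 0 ∧ s i n = 0} : Set ℕ) = {a | S.Bad g v a ∧ s i a = 0} := by
      ext a
      exact and_congr_left fun _ => hA0 a
    rw [this] at hi
    exact (hinf i) (by simpa using hi)
  -- the coarsening
  have hnext : ∀ m x : ℕ, ∃ y, x < y ∧ (∀ i ≤ m, ∃ a, s i a = 0 ∧ x + 5 ≤ a ∧ a < y) ∧
      ∀ n ≤ x + 5, g n ≤ y := by
    intro m x
    have h1 : ∀ i, ∃ a, s i a = 0 ∧ x + 5 ≤ a := fun i => by
      obtain ⟨a, ha, h⟩ := (hs i).exists_gt (x + 5)
      exact ⟨a, ha, h.le⟩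
    choose a ha ha' using h1
    refine ⟨x + 1 + ∑ i ∈ Finset.range (m + 1), (a i + 1) + ∑ n ∈ Finset.range (x + 6), g n,
      by omega, fun i hi => ⟨a i, ha i, ha' i, ?_⟩, fun n hn => ?_⟩
    · have : a i + 1 ≤ ∑ i ∈ Finset.range (m + 1), (a i + 1) :=
        Finset.single_le_sum (f := fun i => a i + 1) (fun _ _ => Nat.zero_le _)
          (Finset.mem_range.2 (by omega))
      omega
    · have : g n ≤ ∑ n ∈ Finset.range (x + 6), g n :=
        Finset.single_le_sum (f := g) (fun _ _ => Nat.zero_le _) (Finset.mem_range.2 (by omega))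
      omega
  choose nx h1 h2 h3 using hnext
  let c : ℕ → ℕ := fun m => Nat.rec 0 (fun m x => nx m x) m
  have hcs : ∀ m, c (m + 1) = nx m (c m) := fun m => rfl
  have hc : StrictMono c := strictMono_nat_of_lt_succ fun m => by
    rw [hcs]
    exact h1 _ _
  obtain ⟨T, hTV, hTE⟩ := S.exists_coarsen c hc
  have hTin : ∀ (v : G) (k m : ℕ), T.In v k m ↔ S.In v (c k) (c m) := by
    intro v k m
    unfold WSys.In
    rw [hTV, hTE]
  refine ⟨T, fun v => ?_⟩
  obtain ⟨i, B, hiB⟩ := hfew v
  filter_upwards [eventually_ge_atTop (max i B)] with m hm κ hκ hin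
  have him : i ≤ m := le_trans (le_max_left _ _) hm
  have hBm : B ≤ m := le_trans (le_max_right _ _) hm
  have hmc : m ≤ c m := hc.id_le m
  obtain ⟨a, ha, ha1, ha2⟩ := h2 m (c m) i him
  rw [← hcs] at ha2
  have hnb := hiB a (by omega) ha
  rw [hTin] at hin
  have hc1 : c (m + 1) < c (m + 2) := hc (Nat.lt_succ_self (m + 1))
  have hc2 : c (m + 2) ≤ c κ := hc.monotone hκ
  unfold WSys.Bad at hnb
  push Not at hnb
  obtain ⟨n, hn1, hn2, hn3⟩ := hnb (c κ) (by omega) (hin.mono le_rfl (by omega))
  obtain ⟨m', hm', hm1, hm2⟩ := exists_between c hc (i := m) (j := n - 2) (by omega)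
  have hlt : c m' < c κ := by omega
  have hm'κ : m' < κ := hc.lt_iff_lt.1 hlt
  have hgn : g n ≤ c (m' + 2) := by
    rw [show m' + 2 = (m' + 1) + 1 from rfl, hcs]
    exact h3 _ _ n (by omega)
  refine ⟨m' + 1, by omega, by omega, ?_⟩
  rw [hTin]
  have hc3 : c (m' + 2) < c (m' + 1 + 2) := hc (Nat.lt_succ_self (m' + 2))
  refine hn3.mono (by omega) ?_
  simpa using hm1

end Pool.Agent.MP_b00c97_gt.LN
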