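import Pool.Agent.MP_b00c97_gt.LN.Basic

/-!
# MP_b00c97_gt, part N, block N4: by LGP one of the families `badFam g` is not hitting
-/

set_option autoImplicit false

open Filter Set

namespace Pool.Agent.MP_b00c97_gt.LN

universe u

variable {G : Type u} [Group G]

namespace WSys

/-- An enumeration of a finite set. -/
theorem exists_enum_finset (E : Finset G) :
    ∃ ε : ℕ → G, ∀ e ∈ E, ∃ j < E.card, ε j = e := by
  classical
  refine ⟨fun j => E.toList.getD j 1, fun e he => ?_⟩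
  obtain ⟨j, hj, hje⟩ := List.mem_iff_getElem.1 (Finset.mem_toList.2 he)
  refine ⟨j, by simpa using hj, ?_⟩
  simp only
  rw [List.getD_eq_getElem _ _ hj, hje]

/-- The bounding function attached to a member of `badFam g`. -/
theorem exists_bound (S : WSys G) (A g : ℕ → ℕ) :
    ∃ f : ℕ → ℕ, A ∈ S.badFam g → ∃ (v : G) (κ : ℕ → ℕ),
      (∀ a, A a = 0 → a + 2 ≤ κ a ∧ S.In v⁻¹ (κ a) (a + 2) ∧
        ∀ n, a ≤ n + 1 → n ≤ κ a → ¬ S.In v (g n) (n - 2)) ∧
      (∀ a n j, n ≤ κ a → j < (S.E (n + 1)).card →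
        Nat.pair (n + 1) j ≤ f a ∧ S.lev v n ≤ f a) := by
  classical
  by_cases hA : A ∈ S.badFam g
  · obtain ⟨-, v, hv⟩ := hA
    have hv' : ∀ a, ∃ k, A a = 0 → a + 2 ≤ k ∧ S.In v⁻¹ k (a + 2) ∧
        ∀ n, a ≤ n + 1 → n ≤ k → ¬ S.In v (g n) (n - 2) := by
      intro a
      by_cases ha : A a = 0
      · obtain ⟨k, hk⟩ := hv a ha
        exact ⟨k, fun _ => hk⟩
      · exact ⟨0, fun h => absurd h ha⟩
    choose κ hκ using hv'
    refine ⟨fun a => ∑ n ∈ Finset.range (κ a + 1),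
      (S.lev v n + ∑ j ∈ Finset.range (S.E (n + 1)).card, Nat.pair (n + 1) j),
      fun _ => ⟨v, κ, hκ, fun a n j hn hj => ?_⟩⟩
    have h1 : S.lev v n + ∑ j ∈ Finset.range (S.E (n + 1)).card, Nat.pair (n + 1) j ≤
        ∑ n ∈ Finset.range (κ a + 1),
          (S.lev v n + ∑ j ∈ Finset.range (S.E (n + 1)).card, Nat.pair (n + 1) j) :=
      Finset.single_le_sum
        (f := fun n => S.lev v n + ∑ j ∈ Finset.range (S.E (n + 1)).card, Nat.pair (n + 1) j)
        (fun _ _ => Nat.zero_le _) (Finset.mem_range.2 (by omega))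
    have h2 : Nat.pair (n + 1) j ≤ ∑ j ∈ Finset.range (S.E (n + 1)).card, Nat.pair (n + 1) j :=
      Finset.single_le_sum (f := fun j => Nat.pair (n + 1) j)
        (fun _ _ => Nat.zero_le _) (Finset.mem_range.2 hj)
    exact ⟨by simp only; omega, by simp only; omega⟩
  · exact ⟨fun _ => 0, fun h => absurd h hA⟩

/-- N4.  By LGP one of the families is not hitting. -/
theorem exists_not_hitting (S : WSys G) (hL : LGP) : ∃ g, ¬ Hitting (S.badFam g) := by
  classical
  by_contra hcon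
  push Not at hcon
  choose F hF using S.exists_bound
  obtain ⟨X, l, ⟨x0, hx0⟩, hl, hΘ, hA, -, hg⟩ := hL
    (fun i x y => if i = 0 then (fun n => ∑ j ∈ Finset.range (S.E (n + 1)).card, x (Nat.pair (n + 1) j))
      else F x y) (fun g => S.badFam g) hcon
  obtain ⟨y, hy⟩ := S.big l hl
  choose ε hε using fun m => exists_enum_finset (S.E m)
  -- the function `t`
  set t : ℕ → ℕ := fun p => S.lev (y⁻¹ * ε (Nat.unpair p).1 (Nat.unpair p).2) ((Nat.unpair p).1 - 2)
    with ht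
  obtain ⟨g0, hg0X, hg0⟩ := hg t
  set g : ℕ → ℕ := fun n => ∑ j ∈ Finset.range (S.E (n + 1)).card, g0 (Nat.pair (n + 1) j) with hgdef
  have hgX : g ∈ X := by
    have := hΘ 0 g0 hg0X g0 hg0X
    simpa using this
  obtain ⟨A, hAX, hAbad, hAl⟩ := hA g hgX
  have hfX : F A g ∈ X := by
    have := hΘ 1 A hAX g hgX
    simpa using this
  obtain ⟨v, κ, hκ, hf⟩ := hF A g hAbad
  obtain ⟨K, hK⟩ := eventually_atTop.1 (hAl.and (hg0 (F A g) hfX))
  -- a small place of `y * v`
  obtain ⟨n, hn, e, he, heu⟩ := (S.small (y * v)).forall_exists_of_atTop (l K + 5)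
  have hlk : ∃ k, K ≤ k ∧ l k ≤ n + 1 ∧ n + 2 ≤ l (k + 1) := by
    have hex : ∃ k, n + 2 ≤ l k := ⟨n + 2, hl.le_apply⟩
    have h1 := Nat.find_spec hex
    have h0 : K < Nat.find hex := by
      by_contra hlt
      have := hl.monotone (not_lt.1 hlt)
      omega
    refine ⟨Nat.find hex - 1, by omega, ?_, ?_⟩
    · have := Nat.find_min hex (m := Nat.find hex - 1) (by omega)
      omega
    · rwa [Nat.sub_add_cancel (by omega)]
  obtain ⟨k, hKk, hk1, hk2⟩ := hlk
  obtain ⟨hAk, hgk⟩ := hK k hKk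
  obtain ⟨hκ1, hκ2, hκ3⟩ := hκ (l k) hAk
  have hyv : S.In (y * v) (n + 1) n := ⟨e, he, heu⟩
  by_cases hnk : κ (l k) < n
  · -- first case
    refine hy k ?_
    have h := WSys.In.mul (S := S) (l := n + 2) (n := l k + 1) hyv hκ2 (by omega) (by omega)
      hnk (by omega) (by omega)
    rw [mul_assoc, mul_inv_cancel, mul_one] at h
    exact h.mono hk2 le_rfl
  · have hnk : n ≤ κ (l k) := not_lt.1 hnk
    obtain ⟨j, hj, rfl⟩ := hε (n + 1) e he
    obtain ⟨hp1, hp2⟩ := hf (l k) n j hnk hj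
    have hpn : n + 1 ≤ Nat.pair (n + 1) j := Nat.left_le_pair _ _
    set w : G := (ε (n + 1) j)⁻¹ * (y * v) with hw
    have h1 : S.In (y⁻¹ * ε (n + 1) j) (S.lev v n) (n - 1) := by
      have := WSys.In.mul_V (S := S) (n := n - 1) (S.in_lev v n) (S.inv_V n w heu) (by omega) (by omega)
      have e1 : y⁻¹ * ε (n + 1) j = v * w⁻¹ := by rw [hw]; group
      rwa [e1]
    have ht1 : t (Nat.pair (n + 1) j) = S.lev (y⁻¹ * ε (n + 1) j) (n - 1) := by
      simp only [ht, Nat.unpair_pair]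
      rfl
    have h2 : t (Nat.pair (n + 1) j) ≤ F A g (l k) := by
      rw [ht1]
      exact (S.lev_le h1).trans hp2
    have h3 := hgk (Nat.pair (n + 1) j) (by omega) hp1 h2
    have h4 : g0 (Nat.pair (n + 1) j) ≤ g n :=
      Finset.single_le_sum (f := fun j => g0 (Nat.pair (n + 1) j))
        (fun _ _ => Nat.zero_le _) (Finset.mem_range.2 hj)
    have h5 : S.In (y⁻¹ * ε (n + 1) j) (g n) (n - 1) := by
      rw [S.in_iff_lev, ← ht1]
      exact h3.trans h4
    refine hκ3 n hk1 hnk ?_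
    have h6 := WSys.In.mul_V (S := S) (n := n - 2) h5 heu (by omega) (by omega)
    have e2 : y⁻¹ * ε (n + 1) j * w = v := by rw [hw]; group
    rwa [e2] at h6

end WSys

end Pool.Agent.MP_b00c97_gt.LN
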