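import Pool.Agent.MP_b00c97_gt.LN.N5

/-!
# MP_b00c97_gt, block N6: two-sided window systems contradict LGP
-/

set_option autoImplicit false

open Topology Filter Set Pointwise

namespace Pool.Agent.MP_b00c97_gt.LN

universe u

variable {G : Type u} [Group G]

namespace WSys

/-- Smallness of `g` at `n` gives smallness of `g⁻¹` near `n`. -/
theorem inv_small (S : WSys G) (hT : S.TwoSided) (g : G) :
    ∀ᶠ n in atTop, S.In g (n + 1) n → S.In g⁻¹ (n + 3) (n - 4) := by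
  obtain ⟨i₀, hi₀⟩ := eventually_atTop.1 (hT g⁻¹)
  refine eventually_atTop.2 ⟨i₀ + 5, fun n hn h => ?_⟩
  obtain ⟨m, h1, h2, h3⟩ := hi₀ (n - 2) (by omega) (n + 1) (by omega)
    (by rw [inv_inv]; exact h.mono le_rfl (by omega))
  exact h3.mono (by omega) (by omega)

/-- In large gaps of `z` the inverse of `z` is not small. -/
theorem not_in_inv (S : WSys G) (hT : S.TwoSided) (z : G) (J : ℕ → ℕ) (hJ : StrictMono J)
    (hz : ∀ k, ¬ S.In z (J (k + 1)) (J k + 1)) :
    ∀ᶠ k in atTop, ∀ κ, J k + 5 ≤ κ → κ + 2 ≤ J (k + 1) → ¬ S.In z⁻¹ κ (J k + 5) := by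
  obtain ⟨i₀, hi₀⟩ := eventually_atTop.1 (hT z)
  refine eventually_atTop.2 ⟨i₀, fun k hk κ h1 h2 h => ?_⟩
  have hJk : k ≤ J k := hJ.id_le k
  obtain ⟨m, h3, h4, h5⟩ := hi₀ (J k + 3) (by omega) κ (by omega) h
  exact hz k (h5.mono (by omega) (by omega))

/-- The small places of `z` above `J 0` are among the values of `J`. -/
theorem mem_range_of_small (S : WSys G) {z : G} {J : ℕ → ℕ} (hJ : StrictMono J)
    (hz : ∀ k, ¬ S.In z (J (k + 1)) (J k + 1)) {i : ℕ} (hi : J 0 ≤ i) (h : S.In z (i + 1) i) :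
    ∃ k, J k = i := by
  obtain ⟨k, hk1, hk2⟩ : ∃ k, J k ≤ i ∧ i < J (k + 1) := by
    classical
    have hex : ∃ k, i < J (k + 1) := ⟨i, lt_of_lt_of_le (Nat.lt_succ_self i) (hJ.id_le _)⟩
    refine ⟨Nat.find hex, ?_, Nat.find_spec hex⟩
    rcases Nat.eq_zero_or_pos (Nat.find hex) with h0 | h0
    · rw [h0]; exact hi
    · have := Nat.find_min hex (m := Nat.find hex - 1) (by omega)
      rw [show Nat.find hex - 1 + 1 = Nat.find hex by omega] at this
      omega
  refine ⟨k, ?_⟩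
  by_contra hne
  exact hz k (h.mono (by omega) (by omega))

/-- The small places of `z` above `J 0` are far apart. -/
theorem gap_of_small (S : WSys G) {z : G} {J : ℕ → ℕ} (hJ : StrictMono J)
    (hgap : ∀ k, J k + 30 ≤ J (k + 1))
    (hz : ∀ k, ¬ S.In z (J (k + 1)) (J k + 1)) {i j : ℕ} (hi : J 0 ≤ i) (hij : i < j)
    (h : S.In z (i + 1) i) (h' : S.In z (j + 1) j) : i + 30 ≤ j := by
  obtain ⟨k, rfl⟩ := S.mem_range_of_small hJ hz hi h
  obtain ⟨k', rfl⟩ := S.mem_range_of_small hJ hz (le_of_lt (lt_of_le_of_lt hi hij)) h'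
  have hkk : k < k' := hJ.lt_iff_lt.1 hij
  have : J (k + 1) ≤ J k' := hJ.monotone hkk
  have := hgap k
  omega

/-- The largest value of `l` below `i`. -/
theorem exists_gap {l : ℕ → ℕ} (hl : StrictMono l) {i : ℕ} (hi : l 0 ≤ i) :
    ∃ k, l k ≤ i ∧ i < l (k + 1) := by
  classical
  have hex : ∃ k, i < l (k + 1) := ⟨i, lt_of_lt_of_le (Nat.lt_succ_self i) (hl.id_le _)⟩
  refine ⟨Nat.find hex, ?_, Nat.find_spec hex⟩
  rcases Nat.eq_zero_or_pos (Nat.find hex) with h0 | h0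
  · rw [h0]; exact hi
  · have := Nat.find_min hex (m := Nat.find hex - 1) (by omega)
    rw [show Nat.find hex - 1 + 1 = Nat.find hex by omega] at this
    omega

/-- N6, main step: for every large small place `n` of `z⁻¹ * w` there is a value of `l` (in both
senses) in the window `[n - 1, n + 5]`. -/
theorem exists_close (S : WSys G) (hT : S.TwoSided) (w : G) (l : ℕ → ℕ) (hl : StrictMono l)
    (hw : ∀ k, ¬ S.In w (l (k + 1)) (l k + 1)) {x A : ℕ → ℕ} (hA : A ∈ S.stepFam x)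
    (hAl : ∀ᶠ k in atTop, A (l k) = 0) :
    ∃ (z : G) (J : ℕ → ℕ), StrictMono J ∧ (∀ k, ¬ S.In z (J (k + 1)) (J k + 1)) ∧
      (∀ a, A a = 0 → ∃ k e, J k + 20 < a ∧ a + 20 < e ∧ e ≤ J (k + 1) ∧
        J (k + 1) = Encodable.encode ((List.range e).map x) ∧
        S.In z (J (k + 1) + 1) (J (k + 1))) ∧
      ∀ᶠ n in atTop, S.In (z⁻¹ * w) (n + 1) n → ∃ a, A a = 0 ∧ n ≤ a + 1 ∧ a ≤ n + 5 := by
  obtain ⟨-, J, z, hJ, hgap, hz, hcode, hsix⟩ := hA
  refine ⟨z, J, hJ, hz, hcode, ?_⟩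
  obtain ⟨k₀, hk₀⟩ := eventually_atTop.1 hAl
  obtain ⟨k₁, hk₁⟩ := eventually_atTop.1 (S.not_in_inv hT w l hl hw)
  obtain ⟨n₂, hn₂⟩ := eventually_atTop.1 (S.inv_small hT (z⁻¹ * w))
  obtain ⟨n₃, hn₃⟩ := eventually_atTop.1 (S.inv_small hT z)
  -- a small place of `z` that is larger than everything
  set M := l k₀ + l k₁ + l 0 + n₂ + n₃ + J 0 + 100 with hM
  obtain ⟨t₀, ht₀, ht₀'⟩ := (S.small z).forall_exists_of_atTop M
  refine eventually_atTop.2 ⟨t₀ + 100, fun n hn hsmall => ?_⟩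
  have hinv : S.In (z⁻¹ * w)⁻¹ (n + 3) (n - 4) := hn₂ n (by omega) hsmall
  -- the least small place `T ≥ n + 2` of `z`
  classical
  have hexT : ∃ T, n + 2 ≤ T ∧ S.In z (T + 1) T := by
    obtain ⟨T, h1, h2⟩ := (S.small z).forall_exists_of_atTop (n + 2)
    exact ⟨T, h1, h2⟩
  obtain ⟨T, ⟨hT1, hT2⟩, hTmin⟩ : ∃ T, (n + 2 ≤ T ∧ S.In z (T + 1) T) ∧
      ∀ T', n + 2 ≤ T' → S.In z (T' + 1) T' → T ≤ T' :=
    ⟨Nat.find hexT, Nat.find_spec hexT, fun T' h1 h2 => Nat.find_min' hexT ⟨h1, h2⟩⟩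
  -- the largest small place `t ≤ n - 8` of `z`
  obtain ⟨t, ⟨ht1, ht2⟩, htmax⟩ : ∃ t, (t ≤ n - 8 ∧ S.In z (t + 1) t) ∧
      ∀ t', t' ≤ n - 8 → S.In z (t' + 1) t' → t' ≤ t := by
    have hP : t₀ ≤ n - 8 ∧ S.In z (t₀ + 1) t₀ := ⟨by omega, ht₀'⟩
    refine ⟨Nat.findGreatest (fun t => t ≤ n - 8 ∧ S.In z (t + 1) t) (n - 8),
      Nat.findGreatest_spec (P := fun t => t ≤ n - 8 ∧ S.In z (t + 1) t) hP.1 hP,
      fun t' h1 h2 => Nat.le_findGreatest h1 ⟨h1, h2⟩⟩
  have htt₀ : t₀ ≤ t := htmax t₀ (by omega) ht₀'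
  -- (*)
  obtain ⟨k1, hk1a, hk1b⟩ : ∃ k1, n - 1 ≤ l k1 ∧ l k1 ≤ T + 1 := by
    have hwin : S.In w (T + 2) (n - 1) := by
      have h1 : S.In (z * (z⁻¹ * w)) (T + 2) (n - 1) :=
        In.mul hT2 hsmall (by omega) (by omega) (by omega) (by omega) (by omega)
      rwa [mul_inv_cancel_left] at h1
    obtain ⟨k, hk1, hk2⟩ := exists_gap hl (i := n - 2) (by omega)
    by_contra hcon
    push Not at hcon
    have h3 := hcon (k + 1) (by omega)
    exact hw k (hwin.mono (by omega) (by omega))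
  -- (**)
  obtain ⟨k2, hk2a, hk2b⟩ : ∃ k2, t - 9 ≤ l k2 ∧ l k2 ≤ n + 5 := by
    have hzinv : S.In z⁻¹ (t + 3) (t - 4) := hn₃ t (by omega) ht2
    have hwinv : S.In w⁻¹ (n + 4) (t - 5) := by
      have h1 : S.In ((z⁻¹ * w)⁻¹ * z⁻¹) (n + 4) (t - 5) :=
        In.mul hinv hzinv (by omega) (by omega) (by omega) (by omega) (by omega)
      rwa [show (z⁻¹ * w)⁻¹ * z⁻¹ = w⁻¹ by group] at h1
    obtain ⟨k, hk1, hk2⟩ := exists_gap hl (i := t - 10) (by omega)
    refine ⟨k + 1, by omega, ?_⟩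
    by_contra hcon
    have hkk : k₁ ≤ k := by
      by_contra hlt
      have : l (k + 1) ≤ l k₁ := hl.monotone (by omega)
      omega
    exact hk₁ k hkk (n + 4) (by omega) (by omega) (hwinv.mono le_rfl (by omega))
  have hA1 : A (l k1) = 0 := by
    refine hk₀ k1 ?_
    by_contra hlt
    have : l k1 ≤ l k₀ := hl.monotone (by omega)
    omega
  have hA2 : A (l k2) = 0 := by
    refine hk₀ k2 ?_
    by_contra hlt
    have : l k2 ≤ l k₀ := hl.monotone (by omega)
    omega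
  -- six places do not fit
  have hfit : ∀ a a', A a = 0 → A a' = 0 → t - 9 ≤ a → a' ≤ max (T + 1) (n + 5) → ¬ a < a' := by
    intro a a' ha ha' h1 h2 hlt
    obtain ⟨s, hs, hs0, hs5, hsm⟩ := hsix a a' ha ha' hlt
    have e01 := hs (show 0 < 1 by norm_num)
    have e12 := hs (show 1 < 2 by norm_num)
    have e23 := hs (show 2 < 3 by norm_num)
    have e34 := hs (show 3 < 4 by norm_num)
    have e45 := hs (show 4 < 5 by norm_num)
    have hJ0 : J 0 ≤ t - 9 := by omega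
    have g01 := S.gap_of_small hJ hgap hz (by omega) e01 (hsm 0 (by norm_num)) (hsm 1 (by norm_num))
    have g12 := S.gap_of_small hJ hgap hz (by omega) e12 (hsm 1 (by norm_num)) (hsm 2 (by norm_num))
    have g23 := S.gap_of_small hJ hgap hz (by omega) e23 (hsm 2 (by norm_num)) (hsm 3 (by norm_num))
    have g34 := S.gap_of_small hJ hgap hz (by omega) e34 (hsm 3 (by norm_num)) (hsm 4 (by norm_num))
    -- the fifth place is `≥ n + 2`?  count
    have h5T : s 5 < max (T + 1) (n + 5) := lt_of_lt_of_le hs5 h2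
    -- at most one place in each of the three intervals
    have hc1 : ¬ s 1 ≤ n - 8 := by
      intro h
      have := htmax (s 1) h (hsm 1 (by norm_num))
      omega
    have hc2 : ¬ n + 2 ≤ s 3 := by
      intro h
      have := hTmin (s 3) h (hsm 3 (by norm_num))
      rcases max_cases (T + 1) (n + 5) with hh | hh <;> omega
    omega
  have heq : l k1 = l k2 := by
    rcases lt_trichotomy (l k1) (l k2) with h | h | h
    · exact absurd h (hfit _ _ hA1 hA2 (by omega) (le_trans hk2b (le_max_right _ _)))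
    · exact h
    · exact absurd h (hfit _ _ hA2 hA1 (by omega) (le_trans hk1b (le_max_left _ _)))
  exact ⟨l k1, hA1, by omega, by omega⟩

/-- The value read off from `w * e` at precision `n - 6`. -/
noncomputable def readOff (S : WSys G) (w e : G) (n a : ℕ) : ℕ :=
  ((Encodable.decode (α := List ℕ) (S.lev (w * e) (n - 6) - 1)).getD []).getD a 0

/-- The set of possible values at `a`. -/
noncomputable def readSet (S : WSys G) (w : G) (a : ℕ) : Finset ℕ := by
  classical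
  exact (Finset.Icc (a - 5) (a + 1)).biUnion
    (fun n => (S.E (n + 3)).image (fun e => S.readOff w e n a))

theorem card_readSet (S : WSys G) (w : G) (a : ℕ) :
    (S.readSet w a).card ≤ ∑ n ∈ Finset.Icc (a - 5) (a + 1), (S.E (n + 3)).card := by
  classical
  exact Finset.card_biUnion_le.trans (Finset.sum_le_sum fun n _ => Finset.card_image_le)

/-- N6.  Two-sided systems contradict LGP. -/
theorem not_twoSided (S : WSys G) (hT : S.TwoSided) (hL : LGP) : False := by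
  classical
  set N : ℕ → ℕ := fun a => ∑ n ∈ Finset.Icc (a - 5) (a + 1), (S.E (n + 3)).card with hN
  obtain ⟨X, l, ⟨x₀, hx₀⟩, hl, hΘ, h1, h2, -⟩ := hL (fun _ _ _ => N) S.stepFam S.hitting_stepFam
  have hNX : N ∈ X := hΘ 0 x₀ hx₀ x₀ hx₀
  obtain ⟨w, hw⟩ := S.big l hl
  obtain ⟨x, hxX, hx⟩ := h2 N hNX (fun a j => (S.readSet w a).toList.getD j 0)
  obtain ⟨A, -, hA, hAl⟩ := h1 x hxX
  obtain ⟨z, J, hJ, hz, hcode, hclose⟩ := S.exists_close hT w l hl hw hA hAl
  obtain ⟨n₀, hn₀⟩ := eventually_atTop.1 hx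
  obtain ⟨n₁, hn₁⟩ := eventually_atTop.1 hclose
  obtain ⟨n₂, hn₂⟩ := eventually_atTop.1 (S.inv_small hT (z⁻¹ * w))
  obtain ⟨n, hn, hsmall⟩ := (S.small (z⁻¹ * w)).forall_exists_of_atTop (n₀ + n₁ + n₂ + 100)
  obtain ⟨a, hAa, ha1, ha2⟩ := hn₁ n (by omega) hsmall
  obtain ⟨k, e, hk1, hk2, hk3, hk4, hk5⟩ := hcode a hAa
  obtain ⟨e', he', hu⟩ := hn₂ n (by omega) hsmall
  -- `z = (w * e') * u`
  set u := e'⁻¹ * (z⁻¹ * w)⁻¹ with hudef
  have hzw : w * e' * u = z := by rw [hudef]; group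
  have hzw' : z * u⁻¹ = w * e' := by rw [hudef]; group
  have hlev : S.lev (w * e') (n - 6) = J (k + 1) + 1 := by
    apply le_antisymm
    · apply S.lev_le
      rw [← hzw']
      exact In.mul_V hk5 (S.inv_V _ _ hu) (by omega) (by omega)
    · by_contra hlt
      have h3 : S.In (w * e') (J (k + 1)) (n - 6) := (S.in_lev _ _).mono (by omega) le_rfl
      have h4 : S.In (w * e' * u) (J (k + 1)) (n - 7) := In.mul_V h3 hu (by omega) (by omega)
      rw [hzw] at h4
      exact hz k (h4.mono le_rfl (by omega))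
  have hval : S.readOff w e' n a = x a := by
    unfold readOff
    rw [hlev, Nat.add_sub_cancel, hk4, Encodable.encodek, Option.getD_some]
    rw [List.getD_eq_getElem _ _ (by simp; omega)]
    simp
  have hmem : x a ∈ S.readSet w a := by
    unfold readSet
    rw [Finset.mem_biUnion]
    exact ⟨n, Finset.mem_Icc.2 ⟨by omega, by omega⟩, Finset.mem_image.2 ⟨e', he', hval⟩⟩
  obtain ⟨j, hj, hj'⟩ := List.getElem_of_mem (Finset.mem_toList.2 hmem)
  refine hn₀ a (by omega) j ?_ ?_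
  · rw [Finset.length_toList] at hj
    exact lt_of_lt_of_le hj (S.card_readSet w a)
  · show (S.readSet w a).toList.getD j 0 = x a
    rw [List.getD_eq_getElem _ _ hj]
    exact hj'

end WSys

end Pool.Agent.MP_b00c97_gt.LN
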