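import Pool.Agent.MP_b00c97_gt.LN.N1
import Pool.Agent.MP_b00c97_gt.LN.N3
import Pool.Agent.MP_b00c97_gt.LN.N4
import Pool.Agent.MP_b00c97_gt.LN.N6

/-!
# MP_b00c97_gt, part N: LGP implies that player I has no winning strategy on an o-bounded group.
-/

set_option autoImplicit false

open Topology Filter Set Pointwise

namespace Pool.Agent.MP_b00c97_gt.LN

universe u

/-- The main theorem of part N. -/
theorem not_firstWins (hL : LGP) {G : Type u} [Group G] [TopologicalSpace G]
    [IsTopologicalGroup G] (hO : OBounded (univ : Set G)) : ¬ FirstWins (univ : Set G) := by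
  intro hW
  obtain ⟨S⟩ := exists_wsys hO hW
  obtain ⟨g, hg⟩ := S.exists_not_hitting hL
  obtain ⟨T, hT⟩ := S.exists_twoSided g hg
  exact T.not_twoSided hT hL

end Pool.Agent.MP_b00c97_gt.LN
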