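import Pool.Agent.MP_b00c97_gt.LN.Basic

/-!
# MP_b00c97_gt, part N, block N1: from an o-bounded group with a winning strategy for player I
to a window system
-/

set_option autoImplicit false

open Topology Filter Set Pointwise

namespace Pool.Agent.MP_b00c97_gt.LN

universe u

namespace BlockN1

variable {G : Type u} [Group G]

/-- The generators. -/
def gen (C : Set G → ℕ → G) (H : ℕ → Set G) (k : ℕ) : G :=
  C (H (Nat.unpair k).1) (Nat.unpair k).2

open Classical in
/-- The finite sets. -/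
noncomputable def PP (C : Set G → ℕ → G) (H : ℕ → Set G) : ℕ → Finset G
  | 0 => {1}
  | k + 1 => (PP C H k ∪ {gen C H k, (gen C H k)⁻¹}) * (PP C H k ∪ {gen C H k, (gen C H k)⁻¹})

variable (C : Set G → ℕ → G) (H : ℕ → Set G)

theorem one_PP (k : ℕ) : (1 : G) ∈ PP C H k := by
  classical
  induction k with
  | zero => simp [PP]
  | succ k ih =>
    simp only [PP]
    rw [Finset.mem_mul]
    exact ⟨1, Finset.mem_union_left _ ih, 1, Finset.mem_union_left _ ih, one_mul 1⟩

theorem PP_succ (k : ℕ) : PP C H k ⊆ PP C H (k + 1) := by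
  classical
  intro d hd
  simp only [PP]
  rw [Finset.mem_mul]
  exact ⟨d, Finset.mem_union_left _ hd, 1, Finset.mem_union_left _ (one_PP C H k), mul_one d⟩

theorem PP_mono {j k : ℕ} (h : j ≤ k) : PP C H j ⊆ PP C H k :=
  monotone_nat_of_le_succ (f := PP C H) (PP_succ C H) h

theorem gen_mem (k : ℕ) : gen C H k ∈ PP C H (k + 1) := by
  classical
  simp only [PP]
  rw [Finset.mem_mul]
  exact ⟨gen C H k, by simp, 1, Finset.mem_union_left _ (one_PP C H k), mul_one _⟩

theorem inv_PP (k : ℕ) : ∀ d ∈ PP C H k, d⁻¹ ∈ PP C H k := by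
  classical
  induction k with
  | zero => simp [PP]
  | succ k ih =>
    have hQ : ∀ d ∈ PP C H k ∪ {gen C H k, (gen C H k)⁻¹},
        d⁻¹ ∈ PP C H k ∪ {gen C H k, (gen C H k)⁻¹} := by
      intro d hd
      rcases Finset.mem_union.1 hd with hd | hd
      · exact Finset.mem_union_left _ (ih d hd)
      · apply Finset.mem_union_right
        simp only [Finset.mem_insert, Finset.mem_singleton] at hd ⊢
        rcases hd with rfl | rfl
        · right; rfl
        · left; exact inv_inv _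
    intro d hd
    simp only [PP] at hd ⊢
    rw [Finset.mem_mul] at hd ⊢
    obtain ⟨a, ha, b, hb, rfl⟩ := hd
    exact ⟨b⁻¹, hQ b hb, a⁻¹, hQ a ha, by group⟩

theorem mul_PP (k : ℕ) : ∀ c ∈ PP C H k, ∀ d ∈ PP C H k, c * d ∈ PP C H (k + 1) := by
  classical
  intro c hc d hd
  simp only [PP]
  rw [Finset.mem_mul]
  exact ⟨c, Finset.mem_union_left _ hc, d, Finset.mem_union_left _ hd, rfl⟩

theorem PP_congr {H H' : ℕ → Set G} {k : ℕ} (h : ∀ j < k, H j = H' j) :
    PP C H k = PP C H' k := by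
  classical
  induction k with
  | zero => rfl
  | succ k ih =>
    have h1 : gen C H k = gen C H' k := by
      unfold gen
      rw [h _ (lt_of_le_of_lt (Nat.unpair_left_le k) (Nat.lt_succ_self k))]
    simp only [PP]
    rw [h1, ih fun j hj => h j (by omega)]

/-- The requirements for the next neighbourhood. -/
def Good [TopologicalSpace G] (σ : List (Finset G) → Set G) (k : ℕ) (U : Set G) : Prop :=
  U ∈ 𝓝 (1 : G) ∧ (∀ v ∈ U, v⁻¹ ∈ U) ∧ (∀ v ∈ U, ∀ w ∈ U, v * w ∈ H k) ∧
    (∀ d ∈ PP C H k, ∀ v ∈ U, d⁻¹ * v * d ∈ H k) ∧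
    ∀ l : List (Finset G), l.length ≤ k → (∀ F ∈ l, F ⊆ PP C H k) → U ⊆ σ l

omit [Group G] in
theorem finite_lists (P : Finset G) (k : ℕ) :
    {l : List (Finset G) | l.length ≤ k ∧ ∀ F ∈ l, F ⊆ P}.Finite := by
  classical
  have h1 : {l : List (P.powerset) | l.length ≤ k}.Finite := List.finite_length_le _ k
  apply (h1.image (List.map Subtype.val)).subset
  rintro l ⟨hl, hF⟩
  refine ⟨l.attach.map fun F => ⟨F.1, Finset.mem_powerset.2 (hF F.1 F.2)⟩, ?_, ?_⟩
  · simpa using hl
  · simp [List.map_map, Function.comp_def]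

variable [TopologicalSpace G] [IsTopologicalGroup G]

theorem exists_good {σ : List (Finset G) → Set G} (hσ : ∀ l, σ l ∈ 𝓝 (1 : G)) (k : ℕ)
    (hk : H k ∈ 𝓝 (1 : G)) : ∃ U, Good C H σ k U := by
  classical
  -- the square root
  obtain ⟨W, hW, hWW⟩ : ∃ W ∈ 𝓝 (1 : G), ∀ v ∈ W, ∀ w ∈ W, v * w ∈ H k := exists_nhds_one_split hk
  -- the conjugates
  have hconj : ∀ d : G, {v | d⁻¹ * v * d ∈ H k} ∈ 𝓝 (1 : G) := by
    intro d
    have hc : Continuous fun v : G => d⁻¹ * v * d := by fun_prop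
    have : Tendsto (fun v : G => d⁻¹ * v * d) (𝓝 1) (𝓝 1) := by
      have := hc.tendsto 1
      simpa using this
    exact this hk
  set L := {l : List (Finset G) | l.length ≤ k ∧ ∀ F ∈ l, F ⊆ PP C H k} with hL
  have hLf : L.Finite := finite_lists _ _
  set U₀ : Set G := W ∩ (⋂ d ∈ PP C H k, {v | d⁻¹ * v * d ∈ H k}) ∩ ⋂ l ∈ L, σ l with hU₀
  have hU₀n : U₀ ∈ 𝓝 (1 : G) := by
    refine inter_mem (inter_mem hW ?_) ?_
    · exact (Finset.iInter_mem_sets _).2 fun d _ => hconj d
    · exact (biInter_mem hLf).2 fun l _ => hσ l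
  refine ⟨U₀ ∩ U₀⁻¹, inter_mem hU₀n (inv_mem_nhds_one G hU₀n), ?_, ?_, ?_, ?_⟩
  · rintro v ⟨h1, h2⟩
    exact ⟨h2, by simpa using h1⟩
  · rintro v ⟨h1, _⟩ w ⟨h2, _⟩
    exact hWW v h1.1.1 w h2.1.1
  · rintro d hd v ⟨h1, _⟩
    have := h1.1.2
    simp only [mem_iInter] at this
    exact this d hd
  · rintro l hl hF v ⟨h1, _⟩
    have := h1.2
    simp only [mem_iInter] at this
    exact this l ⟨hl, hF⟩

end BlockN1

open BlockN1 in
/-- N1.  From the group and the strategy to a window system. -/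
theorem exists_wsys {G : Type u} [Group G] [TopologicalSpace G] [IsTopologicalGroup G]
    (hO : OBounded (univ : Set G)) (hW : FirstWins (univ : Set G)) : Nonempty (WSys G) := by
  classical
  obtain ⟨σ, hσ, hwin⟩ := hW
  -- countable nets
  have hC : ∀ U : Set G, U ∈ 𝓝 (1 : G) → ∃ c : ℕ → G, ∀ g : G, ∃ j, (c j)⁻¹ * g ∈ U := by
    intro U hU
    obtain ⟨F, hF⟩ := hO (fun _ => U) fun _ => hU
    have hcount : (⋃ n, (F n : Set G)).Countable := countable_iUnion fun n => (F n).countable_toSet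
    have hne : (⋃ n, (F n : Set G)).Nonempty := by
      obtain ⟨n, hn⟩ := mem_iUnion.1 (hF (mem_univ (1 : G)))
      obtain ⟨d, hd, _⟩ := Set.mem_mul.1 hn
      exact ⟨d, mem_iUnion.2 ⟨n, hd⟩⟩
    obtain ⟨c, hc⟩ := hcount.exists_eq_range hne
    refine ⟨c, fun g => ?_⟩
    obtain ⟨n, hn⟩ := mem_iUnion.1 (hF (mem_univ g))
    obtain ⟨d, hd, u, hu, rfl⟩ := Set.mem_mul.1 hn
    have : d ∈ range c := hc ▸ mem_iUnion.2 ⟨n, hd⟩
    obtain ⟨j, rfl⟩ := this
    exact ⟨j, by simpa using hu⟩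
  set C : Set G → ℕ → G := fun U => Classical.epsilon fun c : ℕ → G => ∀ g : G, ∃ j, (c j)⁻¹ * g ∈ U
    with hCdef
  have hCs : ∀ U : Set G, U ∈ 𝓝 (1 : G) → ∀ g : G, ∃ j, (C U j)⁻¹ * g ∈ U := fun U hU =>
    Classical.epsilon_spec (hC U hU)
  -- the recursion
  let step : ℕ → (ℕ → Set G) → (ℕ → Set G) := fun k H =>
    Function.update H (k + 1) (Classical.epsilon (Good C H σ k))
  let s : ℕ → ℕ → Set G := fun k => Nat.rec (fun _ => univ) step k
  have hs0 : s 0 = fun _ => univ := rfl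
  have hss : ∀ k, s (k + 1) = Function.update (s k) (k + 1) (Classical.epsilon (Good C (s k) σ k)) :=
    fun k => rfl
  set U : ℕ → Set G := fun k => s k k with hU
  have hsU : ∀ k j, j ≤ k → s k j = U j := by
    intro k
    induction k with
    | zero => intro j hj; obtain rfl : j = 0 := by omega
              rfl
    | succ k ih =>
      intro j hj
      rcases Nat.lt_or_ge j (k + 1) with h | h
      · rw [hss, Function.update_of_ne (by omega)]
        exact ih j (by omega)
      · obtain rfl : j = k + 1 := by omega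
        rfl
  have hPP : ∀ k, PP C (s k) k = PP C U k := fun k => PP_congr C fun j hj => hsU k j hj.le
  have hUn : ∀ k, U k ∈ 𝓝 (1 : G) ∧ Good C U σ k (U (k + 1)) := by
    have key : ∀ k, U k ∈ 𝓝 (1 : G) → Good C U σ k (U (k + 1)) := by
      intro k hk
      have h1 : Good C (s k) σ k (Classical.epsilon (Good C (s k) σ k)) :=
        Classical.epsilon_spec (exists_good C (s k) hσ k hk)
      have h2 : U (k + 1) = Classical.epsilon (Good C (s k) σ k) := by
        change s (k + 1) (k + 1) = _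
        rw [hss, Function.update_self]
      rw [h2]
      obtain ⟨a, b, c, d, e⟩ := h1
      rw [hPP] at d e
      exact ⟨a, b, c, d, e⟩
    have h0 : ∀ k, U k ∈ 𝓝 (1 : G) := by
      intro k
      induction k with
      | zero => exact univ_mem
      | succ k ih => exact (key k ih).1
    exact fun k => ⟨h0 k, key k (h0 k)⟩
  set P : ℕ → Finset G := PP C U with hP
  have hU1 : ∀ k, (1 : G) ∈ U k := fun k => mem_of_mem_nhds (hUn k).1
  have hUinv : ∀ k, ∀ v ∈ U k, v⁻¹ ∈ U k := by
    intro k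
    cases k with
    | zero => intro v _; exact mem_univ _
    | succ k => exact (hUn k).2.2.1
  have hUmul : ∀ k, ∀ v ∈ U (k + 1), ∀ w ∈ U (k + 1), v * w ∈ U k := fun k => (hUn k).2.2.2.1
  have hUconj : ∀ k, ∀ d ∈ P k, ∀ v ∈ U (k + 1), d⁻¹ * v * d ∈ U k := fun k => (hUn k).2.2.2.2.1
  have hUσ : ∀ k, ∀ l : List (Finset G), l.length ≤ k → (∀ F ∈ l, F ⊆ P k) → U (k + 1) ⊆ σ l :=
    fun k => (hUn k).2.2.2.2.2
  have hUanti : ∀ {j k : ℕ}, j ≤ k → U k ⊆ U j := by
    intro j k h
    refine antitone_nat_of_succ_le (f := U) (fun n => ?_) h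
    intro v hv
    have := hUmul n v hv 1 (hU1 (n + 1))
    rwa [mul_one] at this
  have hPmono : ∀ {j k : ℕ}, j ≤ k → P j ⊆ P k := fun h => PP_mono C U h
  -- density
  have hdense : ∀ m, ∀ g : G, ∃ k, ∃ d ∈ P k, d⁻¹ * g ∈ U m := by
    intro m g
    obtain ⟨j, hj⟩ := hCs (U m) (hUn m).1 g
    refine ⟨Nat.pair m j + 1, C (U m) j, ?_, hj⟩
    have := gen_mem C U (Nat.pair m j)
    simpa [gen] using this
  -- o-boundedness
  have hsm : ∀ n, ∃ F : ℕ → ℕ, ∀ g : G, ∃ m, n ≤ m ∧ ∃ d ∈ P (F m), d⁻¹ * g ∈ U m := by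
    intro n
    obtain ⟨F, hF⟩ := hO (fun m => U (n + m + 1)) fun m => (hUn (n + m + 1)).1
    choose K hK using fun m => hdense (m + 1)
    refine ⟨fun m => (F (m - n)).sup fun h => K m h, fun g => ?_⟩
    obtain ⟨m, hm⟩ := mem_iUnion.1 (hF (mem_univ g))
    obtain ⟨h, hh, u, hu, rfl⟩ := Set.mem_mul.1 hm
    obtain ⟨d, hd, hdh⟩ := hK (n + m) h
    refine ⟨n + m, by omega, d, ?_, ?_⟩
    · refine hPmono ?_ hd
      change K (n + m) h ≤ (F (n + m - n)).sup fun h => K (n + m) h
      rw [show n + m - n = m by omega]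
      exact Finset.le_sup (f := fun h => K (n + m) h) hh
    · rw [← mul_assoc]
      exact hUmul (n + m) _ hdh _ hu
  choose F hF using hsm
  -- the function kappa
  let κ : ℕ → ℕ := fun m => m + ∑ j ∈ Finset.range (m + 1), ∑ n ∈ Finset.range (m + 1), F n j
  have hκF : ∀ n m, n ≤ m → F n m ≤ κ m := by
    intro n m h
    have h1 : F n m ≤ ∑ n ∈ Finset.range (m + 1), F n m :=
      Finset.single_le_sum (f := fun n => F n m) (fun _ _ => Nat.zero_le _)
        (Finset.mem_range.2 (by omega))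
    have h2 : (∑ n ∈ Finset.range (m + 1), F n m) ≤
        ∑ j ∈ Finset.range (m + 1), ∑ n ∈ Finset.range (m + 1), F n j :=
      Finset.single_le_sum (f := fun j => ∑ n ∈ Finset.range (m + 1), F n j)
        (fun _ _ => Nat.zero_le _) (Finset.mem_range.2 (by omega))
    change F n m ≤ m + _
    omega
  have hκid : ∀ m, m ≤ κ m := fun m => Nat.le_add_right _ _
  have hκmono : ∀ {a b : ℕ}, a ≤ b → κ a ≤ κ b := by
    intro a b h
    refine Nat.add_le_add h ?_
    calc ∑ j ∈ Finset.range (a + 1), ∑ n ∈ Finset.range (a + 1), F n j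
        ≤ ∑ j ∈ Finset.range (a + 1), ∑ n ∈ Finset.range (b + 1), F n j := by
          refine Finset.sum_le_sum fun j _ => ?_
          exact Finset.sum_le_sum_of_subset (Finset.range_mono (by omega))
      _ ≤ ∑ j ∈ Finset.range (b + 1), ∑ n ∈ Finset.range (b + 1), F n j :=
          Finset.sum_le_sum_of_subset (Finset.range_mono (by omega))
  have hfreq : ∀ g : G, ∀ n, ∃ m, n ≤ m ∧ ∃ d ∈ P (κ m), d⁻¹ * g ∈ U m := by
    intro g n
    obtain ⟨m, hm, d, hd, h⟩ := hF n g
    exact ⟨m, hm, d, hPmono (hκF n m hm) hd, h⟩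
  -- the windows
  let w : ℕ → ℕ := fun i => Nat.rec 0 (fun _ x => κ x + 1) i
  have hws : ∀ i, w (i + 1) = κ (w i) + 1 := fun i => rfl
  have hwmono : StrictMono w := strictMono_nat_of_lt_succ fun i => by
    rw [hws]; exact Nat.lt_succ_of_le (hκid _)
  have hwid : ∀ i, i ≤ w i := fun i => hwmono.id_le i
  refine ⟨{ V := fun i => U (w i), E := fun i => P (κ (w i)), one_V := fun i => hU1 _,
            inv_V := fun i => hUinv _, mul_V := ?_, one_E := fun i => one_PP C U _,
            inv_E := fun i => inv_PP C U _, mul_E := ?_, conj := ?_, small := ?_, big := ?_ }⟩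
  · intro i v hv v' hv'
    have hle : w i + 1 ≤ w (i + 1) := hwmono (Nat.lt_succ_self i)
    exact hUmul (w i) v (hUanti hle hv) v' (hUanti hle hv')
  · intro i c hc d hd
    refine hPmono ?_ (mul_PP C U _ c hc d hd)
    have := hκid (w (i + 1))
    rw [hws] at this
    exact this
  · intro i d hd v hv
    rw [hws] at hv
    exact hUanti (hκid _) (hUconj _ d hd v hv)
  · intro g
    rw [frequently_atTop]
    intro a
    obtain ⟨m, hm, d, hd, h⟩ := hfreq g (w a)
    -- the window of m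
    have hex : ∃ i, m < w (i + 1) := ⟨m, lt_of_lt_of_le (Nat.lt_succ_self m) (hwid (m + 1))⟩
    set i := Nat.find hex with hi
    have h1 : m < w (i + 1) := Nat.find_spec hex
    have h2 : w i ≤ m := by
      rcases Nat.eq_zero_or_pos i with h0 | hpos
      · rw [h0]; exact Nat.zero_le _
      · obtain ⟨i', hi'⟩ : ∃ i', i = i' + 1 := ⟨i - 1, by omega⟩
        rw [hi']
        by_contra hcon
        push Not at hcon
        have := Nat.find_min' hex hcon
        omega
    refine ⟨i, ?_, d, hPmono (hκmono h1.le) hd, hUanti h2 h⟩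
    by_contra hcon
    push Not at hcon
    have : w (i + 1) ≤ w a := hwmono.monotone (show i + 1 ≤ a by omega)
    omega
  · intro J hJ
    have h := hwin fun k => P (κ (w (J (k + 1))))
    rw [not_subset] at h
    obtain ⟨z, _, hz⟩ := h
    refine ⟨z, fun k => ?_⟩
    rintro ⟨d, hd, hdz⟩
    apply hz
    rw [mem_iUnion]
    refine ⟨k, Set.mem_mul.2 ⟨d, hd, d⁻¹ * z, ?_, by group⟩⟩
    rw [hws] at hdz
    refine hUσ (κ (w (J k))) _ ?_ ?_ hdz
    · simp only [List.length_map, List.length_range]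
      exact (hJ.id_le k).trans ((hwid _).trans (hκid _))
    · intro F' hF'
      simp only [List.mem_map, List.mem_range] at hF'
      obtain ⟨j, hj, rfl⟩ := hF'
      exact hPmono (hκmono (hwmono.monotone (hJ.monotone (by omega))))

end Pool.Agent.MP_b00c97_gt.LN
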