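import Pool.Agent.MP_b00c97_gt.LN.Basic

/-!
# MP_b00c97_gt, part N, block N5: the families of step 3 are hitting
-/

set_option autoImplicit false

open Topology Filter Set Pointwise

namespace Pool.Agent.MP_b00c97_gt.LN

universe u

variable {G : Type u} [Group G]

/-- N5.  The families of step 3 are hitting.  `code` codes finite sequences; `x` is fixed. -/
def WSys.stepFam (S : WSys G) (x : ℕ → ℕ) : Set (ℕ → ℕ) :=
  {A | {a | A a = 0}.Infinite ∧ ∃ (J : ℕ → ℕ) (z : G), StrictMono J ∧
    (∀ k, J k + 30 ≤ J (k + 1)) ∧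
    (∀ k, ¬ S.In z (J (k + 1)) (J k + 1)) ∧
    -- every `a ∈ A` lies well inside a gap `(J k, J (k + 1))` where `J (k + 1)` is a small place
    -- of `z` and codes an initial segment of `x` which is longer than `a`
    (∀ a, A a = 0 → ∃ k e, J k + 20 < a ∧ a + 20 < e ∧ e ≤ J (k + 1) ∧
      J (k + 1) = Encodable.encode ((List.range e).map x) ∧ S.In z (J (k + 1) + 1) (J (k + 1))) ∧
    -- between two elements of `A` there are at least six small places of `z`
    (∀ a a', A a = 0 → A a' = 0 → a < a' → ∃ s : ℕ → ℕ, StrictMono s ∧ a < s 0 ∧ s 5 < a' ∧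
      ∀ i < 6, S.In z (s i + 1) (s i))}

/-- N5.  The families of step 3 are hitting. -/
theorem WSys.hitting_stepFam (S : WSys G) (x : ℕ → ℕ) : Hitting (S.stepFam x) := by
  classical
  intro s hs
  -- an element of `S_i` above `m`
  have hα : ∀ i m, ∃ a, s i a = 0 ∧ m < a := by
    intro i m
    obtain ⟨a, ha, hma⟩ := (hs i).exists_gt m
    exact ⟨a, ha, hma⟩
  choose α hα0 hα1 using hα
  let c : ℕ → ℕ := fun e => Encodable.encode ((List.range e).map x)
  have hc : ∀ e, e ≤ c e := by
    intro e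
    have := Encodable.length_le_encode ((List.range e).map x)
    simpa using this
  -- the sequence of lengths
  let e : ℕ → ℕ := fun k =>
    Nat.rec 0 (fun k ek => (Finset.range (k + 1)).sup (fun i => α i (c ek + 20)) + 21) k
  have he : ∀ k, e (k + 1) = (Finset.range (k + 1)).sup (fun i => α i (c (e k) + 20)) + 21 :=
    fun k => rfl
  have heα : ∀ k i, i ≤ k → α i (c (e k) + 20) + 20 < e (k + 1) := by
    intro k i hi
    have : α i (c (e k) + 20) ≤ (Finset.range (k + 1)).sup (fun i => α i (c (e k) + 20)) :=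
      Finset.le_sup (f := fun i => α i (c (e k) + 20)) (Finset.mem_range.2 (by omega))
    rw [he]
    omega
  let J : ℕ → ℕ := fun k => c (e k)
  have hJe : ∀ k, e k ≤ J k := fun k => hc (e k)
  have hJ30 : ∀ k, J k + 30 ≤ J (k + 1) := by
    intro k
    have h1 := heα k 0 (by omega)
    have h2 := hα1 0 (c (e k) + 20)
    have h3 := hJe (k + 1)
    have h4 : J k = c (e k) := rfl
    omega
  have hJmono : StrictMono J := strictMono_nat_of_lt_succ fun k => by
    have := hJ30 k
    omega
  obtain ⟨z, hz⟩ := S.big J hJmono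
  have hzIn : ∀ k, ¬ S.In z (J (k + 1)) (J k + 1) := hz
  -- small places
  have hran : ∀ i, S.In z (i + 1) i → J 0 < i → ∃ k, J k = i := by
    intro i hi h0
    by_contra hcon
    push Not at hcon
    -- the largest `k` with `J k < i`
    have hex : ∃ k, i ≤ J k := ⟨i, hJmono.id_le i⟩
    obtain ⟨k, hk, hmin⟩ : ∃ k, i ≤ J k ∧ ∀ m < k, ¬ i ≤ J m :=
      ⟨Nat.find hex, Nat.find_spec hex, fun m hm => Nat.find_min hex hm⟩
    obtain _ | k := k
    · omega
    · have h1 := hmin k (by omega)
      have h2 := hcon (k + 1)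
      apply hzIn k
      exact hi.mono (by omega) (by omega)
  have hKinf : {k | S.In z (J k + 1) (J k)}.Infinite := by
    rw [Set.infinite_iff_exists_gt]
    intro N
    obtain ⟨i, hi, h⟩ := (S.small z).forall_exists_of_atTop (J (N + 1))
    have h0 : J 0 < i := lt_of_lt_of_le (hJmono (Nat.succ_pos N)) hi
    obtain ⟨k, rfl⟩ := hran i h h0
    refine ⟨k, h, ?_⟩
    by_contra hlt
    have h1 : k ≤ N := not_lt.1 hlt
    have h2 := hJmono (show k < N + 1 by omega)
    omega
  obtain ⟨κ, hκ, hκK⟩ : ∃ κ : ℕ → ℕ, StrictMono κ ∧ ∀ r, S.In z (J (κ r) + 1) (J (κ r)) := by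
    refine ⟨Nat.nth (fun k => S.In z (J k + 1) (J k)), Nat.nth_strictMono hKinf, fun r => ?_⟩
    exact Nat.nth_mem_of_infinite hKinf r
  have hκadd : ∀ a b, κ a + b ≤ κ (a + b) := by
    intro a b
    induction b with
    | zero => simp
    | succ b ih =>
      have := hκ (show a + b < a + (b + 1) by omega)
      omega
  have hκid : ∀ r, r ≤ κ r := fun r => hκ.id_le r
  -- the points
  let b : ℕ → ℕ := fun r => (Nat.unpair r).1
  have hb : ∀ r, b r ≤ r := fun r => Nat.unpair_left_le r
  let a : ℕ → ℕ := fun r => α (b r) (J (κ (7 * r + 7) - 1) + 20)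
  have ha1 : ∀ r, J (κ (7 * r + 7) - 1) + 20 < a r := fun r => hα1 _ _
  have ha2 : ∀ r, s (b r) (a r) = 0 := fun r => hα0 _ _
  have ha3 : ∀ r, a r + 20 < e (κ (7 * r + 7)) := by
    intro r
    have h1 := hκid (7 * r + 7)
    have h2 := hb r
    have h3 := heα (κ (7 * r + 7) - 1) (b r) (by omega)
    have h4 : κ (7 * r + 7) - 1 + 1 = κ (7 * r + 7) := by omega
    rw [h4] at h3
    exact h3
  have ha4 : ∀ r, a r < J (κ (7 * r + 7)) := by
    intro r
    have h1 := ha3 r
    have h2 := hJe (κ (7 * r + 7))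
    omega
  have ha5 : ∀ r r', r < r' → J (κ (7 * r + 12)) < a r' := by
    intro r r' hr
    have h1 := ha1 r'
    have h2 : κ (7 * r + 12) ≤ κ (7 * r' + 7) - 1 := by
      have h3 := hκ (show 7 * r + 12 < 7 * r' + 7 by omega)
      omega
    have h3 := hJmono.monotone h2
    omega
  have hamono : StrictMono a := by
    intro r r' hr
    have h1 := ha4 r
    have h2 := ha5 r r' hr
    have h3 := hJmono.monotone (hκ.monotone (show 7 * r + 7 ≤ 7 * r + 12 by omega))
    omega
  let A : ℕ → ℕ := fun n => if ∃ r, a r = n then 0 else 1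
  have hA : ∀ n, A n = 0 ↔ ∃ r, a r = n := by
    intro n
    by_cases h : ∃ r, a r = n
    · simp [A, h]
    · simp [A, h]
  refine ⟨A, ⟨?_, J, z, hJmono, hJ30, hzIn, ?_, ?_⟩, ?_⟩
  · refine Set.infinite_of_injective_forall_mem (f := a) hamono.injective fun r => ?_
    exact (hA _).2 ⟨r, rfl⟩
  · intro n hn
    obtain ⟨r, rfl⟩ := (hA n).1 hn
    have h1 := hκid (7 * r + 7)
    have h4 : κ (7 * r + 7) - 1 + 1 = κ (7 * r + 7) := by omega
    refine ⟨κ (7 * r + 7) - 1, e (κ (7 * r + 7)), ha1 r, ha3 r, ?_, ?_, ?_⟩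
    · rw [h4]; exact hJe _
    · rw [h4]
    · rw [h4]; exact hκK _
  · intro n n' hn hn' hlt
    obtain ⟨r, rfl⟩ := (hA n).1 hn
    obtain ⟨r', rfl⟩ := (hA n').1 hn'
    have hrr : r < r' := hamono.lt_iff_lt.1 hlt
    refine ⟨fun i => J (κ (7 * r + 7 + i)), ?_, ?_, ?_, ?_⟩
    · intro i j hij
      exact hJmono (hκ (by omega))
    · exact ha4 r
    · exact ha5 r r' hrr
    · intro i _
      exact hκK _
  · intro i
    refine Set.infinite_of_injective_forall_mem (f := fun m => a (Nat.pair i m)) ?_ ?_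
    · intro m m' h
      have h1 := hamono.injective h
      exact (Nat.pair_eq_pair.1 h1).2
    · intro m
      refine ⟨(hA _).2 ⟨_, rfl⟩, ?_⟩
      have h1 := ha2 (Nat.pair i m)
      have h2 : b (Nat.pair i m) = i := by simp [b]
      rw [h2] at h1
      exact h1

end Pool.Agent.MP_b00c97_gt.LN
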